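import Pool.Agent.Run7.h197.V.Frey

/-!
# MP_6babc4_nt: Frey's inequality and congruences modulo `n`, families near moving targets

Let `K ⊆ L` be number fields and `j = F/G` a rational function over `K`, for instance the invariant of
a one-parameter family of elliptic curves (full level structure, a cyclic isogeny, ...). For an
elliptic curve `E` over a number field `P` and `n ≥ 1` let `N_n(E)` be the product of the norms of
the primes of `P` not dividing `6` at which `E` has bad reduction, except those at which `E` has
multiplicative reduction and the exponent of the minimal discriminant is divisible by `n`; these are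
the primes not dividing `6 n` at which the representation on the `n`-torsion points is ramified, so
`N_n(E)` is the radical of the conductor of this representation, and for large `n` it is the radical of
the conductor `N_E` (up to primes dividing `6`).

**Theorem.** For all `M`, `s`, `D`, `q` there is `κ` such that for all `n`, all `t ∈ K`, all (moving)
targets `a ∈ L ∪ {∞}` such that `|t - a| ≤ H(t)^(-1/M)` (`|t| ≥ H(t)^(1/M)` for `a = ∞`) at some
archimedean place and such that `j` has two poles other than `a`, for ALL extensions `P` of `K` of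
degree at most `D` and ALL elliptic curves `E` over `P` with invariant `j(t)` for which at most `s`
primes dividing `N_n(E)` and not dividing `q` are primes of potentially multiplicative reduction,
`min (n, h_F(E)) ≤ (2 + log H(a) + log N_n(E)) ^ κ`.

For `n` larger than `h_F(E)` and than the exponents of the minimal discriminant this is
`h_F(E) ≤ (2 + log H(a) + log N_E) ^ κ`, a bound of the kind of Frey's conjecture
`h_F(E) ≤ κ log N_E + c` (the known bounds are powers of `N_E`, not of `log N_E`), for all twists, over
all fields `P` of bounded degree, for curves with a bounded number of primes of potentially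
multiplicative reduction and any number of primes of additive reduction. For smaller `n` it says that
`E` is not congruent modulo `n` to an object of small conductor unless `n` is small or `E` has small
height, as is to be expected from modularity and the conjecture.

Proof. At a place of `P` with `j(t)` not integral `E` has bad reduction, and its contribution to
`N_n(E)` is trivial only if `n` divides the order of `j(t)`. So, up to factorials, all but at most `s`
of the pole orders of `j(t)` at the places of `K` not dividing `6 q` are divisible by `n`, and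
`min (n, log H(t))` is at most a power of the right side by a lower bound for linear forms in
logarithms which is sharp in one of the heights and where all the others are variable
(`Run7.h197.BK`, `Run7.h197.V`). Finally `h_F(E)` is at most a constant times
`log H(t) + log N_n(E) + 1` (`Pool.Agent.N365.FH`, helpers 141, 365, 729, 733).
-/

set_option autoImplicit false

open NumberField Height IsDedekindDomain

namespace Pool.Agent.Results.MP_6babc4_nt.FreyModuloN

section
variable {P : Type} [Field P] [NumberField P]

/-- The exponent of the prime ideal `v` in `x ≠ 0`. -/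
noncomputable def ord (v : HeightOneSpectrum (𝓞 P)) (x : P) : ℤ := -WithZero.log (v.valuation P x)

/-- The equation is integral at `v`. -/
def IntAt (v : HeightOneSpectrum (𝓞 P)) (E : WeierstrassCurve P) : Prop :=
  v.valuation P E.a₁ ≤ 1 ∧ v.valuation P E.a₂ ≤ 1 ∧ v.valuation P E.a₃ ≤ 1 ∧
    v.valuation P E.a₄ ≤ 1 ∧ v.valuation P E.a₆ ≤ 1

/-- The exponent of `v` in the minimal discriminant: the least valuation of the discriminant of an
equation of the curve over `P` which is integral at `v`. -/
noncomputable def discExp (v : HeightOneSpectrum (𝓞 P)) (E : WeierstrassCurve P) : ℕ :=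
  sInf {m : ℕ | ∃ C : WeierstrassCurve.VariableChange P, IntAt v (C • E) ∧
    v.valuation P (C • E).Δ = WithZero.exp (-(m : ℤ))}

/-- Good reduction at `v`. -/
def GoodAt (v : HeightOneSpectrum (𝓞 P)) (E : WeierstrassCurve P) : Prop :=
  ∃ C : WeierstrassCurve.VariableChange P, IntAt v (C • E) ∧ v.valuation P (C • E).Δ = 1

/-- Semistable (good or multiplicative) reduction at `v`. -/
def SemistableAt (v : HeightOneSpectrum (𝓞 P)) (E : WeierstrassCurve P) : Prop :=
  ∃ C : WeierstrassCurve.VariableChange P, IntAt v (C • E) ∧
    (v.valuation P (C • E).Δ = 1 ∨ v.valuation P (C • E).c₄ = 1)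

/-- The modular invariant `j(τ) = E₄(τ) ^ 3 / Δ(τ) = 1 / q + 744 + ⋯`. -/
noncomputable def jInv (τ : UpperHalfPlane) : ℂ :=
  ModularForm.E₄ τ ^ 3 / ModularForm.discriminant τ

/-- The points `τ w` have modular invariant `j`. -/
def IsPeriod (j : P) (τ : InfinitePlace P → UpperHalfPlane) : Prop :=
  ∀ w, jInv (τ w) = w.embedding j

/-- The Faltings height of the elliptic curve `E` over `P` with periods `τ w` (up to an absolute
additive constant, which depends on the normalisation of the metric). -/
noncomputable def faltings (E : WeierstrassCurve P) (τ : InfinitePlace P → UpperHalfPlane) : ℝ :=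
  (∑ᶠ v : HeightOneSpectrum (𝓞 P), (discExp v E : ℝ) * Real.log (Ideal.absNorm v.asIdeal : ℝ) +
    ∑ w : InfinitePlace P,
      (w.mult : ℝ) * -Real.log (‖ModularForm.discriminant (τ w)‖ * (τ w).im ^ 6)) /
    (12 * Module.finrank ℚ P)

/-- The primes not dividing `6` of bad reduction, without those of multiplicative reduction at which
`n` divides the order of the pole of the invariant, which is the exponent of the minimal
discriminant. -/
def ramified (n : ℕ) (E : WeierstrassCurve P) : Set (HeightOneSpectrum (𝓞 P)) :=
  {v | v.valuation P 6 = 1 ∧ ¬ GoodAt v E ∧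
    ¬ (SemistableAt v E ∧ (n : ℤ) ∣ ord v (E.c₄ ^ 3 / E.Δ))}

/-- `log N_n(E)`, the logarithm of the product of their norms. -/
noncomputable def logN (n : ℕ) (E : WeierstrassCurve P) : ℝ :=
  ∑ᶠ v ∈ ramified n E, Real.log (Ideal.absNorm v.asIdeal)

end

section
variable {K : Type} [Field K]

/-- The point of the complex projective line (`none` is the point at infinity) is a pole of `F/G`. -/
def Pole (F G : Polynomial K) (φ : K →+* ℂ) : Option ℂ → Prop
  | none => G.natDegree < F.natDegree
  | some b => (G.map φ).eval b = 0

/-- `F/G` has two poles different from the point `a`. -/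
def TwoPoles (F G : Polynomial K) (φ : K →+* ℂ) (a : Option ℂ) : Prop :=
  ∃ b c : Option ℂ, b ≠ c ∧ b ≠ a ∧ c ≠ a ∧ Pole F G φ b ∧ Pole F G φ c

/-- `|ψ(t) - ψ(a)| ≤ H(t)^(-1/M)`, or `|ψ(t)| ≥ H(t)^(1/M)` for the point `a` at infinity; here
`H(t)` is the product over all places of `K` of `max(1, |t|_v)`. -/
def Near [NumberField K] {L : Type} [Field L] [NumberField L] [Algebra K L] (ψ : L →+* ℂ) (M : ℕ)
    (t : K) : Option L → Prop
  | none => mulHeight₁ t ≤ ‖ψ (algebraMap K L t)‖ ^ M
  | some a => mulHeight₁ t * ‖ψ (algebraMap K L t) - ψ a‖ ^ M ≤ 1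

/-- The height of a point of the projective line. -/
noncomputable def height [NumberField K] : Option K → ℝ
  | none => 1
  | some a => mulHeight₁ a

end

/-- **Frey's inequality modulo `n` near moving targets.** -/
theorem result (K : Type) [Field K] [NumberField K] (F G : Polynomial K) (hcop : IsCoprime F G)
    (hG : G ≠ 0) (L : Type) [Field L] [NumberField L] [Algebra K L] (q : ℕ) (hq : q ≠ 0)
    (M s D : ℕ) :
    ∃ κ : ℕ, ∀ (n : ℕ) (t : K) (a : Option L) (ψ : L →+* ℂ), G.eval t ≠ 0 →
      TwoPoles F G (ψ.comp (algebraMap K L)) (a.map ψ) → Near ψ M t a →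
      ∀ (P : Type) [Field P] [NumberField P] [Algebra K P], Module.finrank K P ≤ D →
      ∀ (E : WeierstrassCurve P) (τ : InfinitePlace P → UpperHalfPlane), E.Δ ≠ 0 →
      E.c₄ ^ 3 / E.Δ = algebraMap K P (F.eval t / G.eval t) → IsPeriod (E.c₄ ^ 3 / E.Δ) τ →
      {v | v ∈ ramified n E ∧ (q : 𝓞 P) ∉ v.asIdeal ∧ ord v (E.c₄ ^ 3 / E.Δ) < 0}.ncard ≤ s →
      min (n : ℝ) (faltings E τ) ≤ (2 + Real.log (height a) + logN n E) ^ κ := by
  obtain ⟨κ, hκ⟩ := Run7.h197.V.freyV F G hcop hG L q hq M s D
  refine ⟨κ, ?_⟩
  intro n t a ψ hGt htwo hnear P _ _ _ hPD E τ hE hj hτ hs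
  have h1 : Run7.h197.N.TwoPoles F G (ψ.comp (algebraMap K L)) (a.map ψ) := by
    obtain ⟨b, c, hbc, hb, hc, pb, pc⟩ := htwo
    refine ⟨b, c, hbc, hb, hc, ?_, ?_⟩
    · rcases b with _ | b <;> exact pb
    · rcases c with _ | c <;> exact pc
  have h2 : Run7.h197.V.NearL ψ M t a := by
    rcases a with _ | a <;> exact hnear
  have h3 : Run7.h197.V.hp a = height a := by
    rcases a with _ | a <;> rfl
  have hgood : ∀ v : HeightOneSpectrum (𝓞 P), Pool.Agent.TH876.FH.GoodAt v E ↔ GoodAt v E := by
    intro v
    constructor
    · rintro ⟨C, a1, a2, a3, a4, a6, a7⟩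
      exact ⟨C, ⟨a1, a2, a3, a4, a6⟩, a7⟩
    · rintro ⟨C, ⟨a1, a2, a3, a4, a6⟩, a7⟩
      exact ⟨C, a1, a2, a3, a4, a6, a7⟩
  have hsemi : ∀ v : HeightOneSpectrum (𝓞 P), Pool.Agent.Y733.FF.SemiAt v E ↔ SemistableAt v E := by
    intro v
    constructor
    · rintro ⟨C, a1, a2, a3, a4, a6, a7⟩
      exact ⟨C, ⟨a1, a2, a3, a4, a6⟩, a7⟩
    · rintro ⟨C, ⟨a1, a2, a3, a4, a6⟩, a7⟩
      exact ⟨C, a1, a2, a3, a4, a6, a7⟩
  have hram : Run7.h197.V.ramified n E = ramified n E := by
    ext v
    unfold Run7.h197.V.ramified ramified
    simp only [Set.mem_ofPred_eq, hgood, hsemi]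
    exact Iff.rfl
  have hlog : Run7.h197.V.logCond n E = logN n E := by
    unfold Run7.h197.V.logCond logN
    rw [hram]
  have h4 := hκ n t a ψ hGt h1 h2 P hPD E τ hE hj hτ (by rw [hram]; exact hs)
  rw [h3, hlog] at h4
  have l3 : 0 ≤ Real.log (height a) := by
    rw [← h3]
    exact Real.log_nonneg (Run7.h197.V.one_le_hp a)
  have l4 : 0 ≤ logN n E := by
    rw [← hlog]
    exact Run7.h197.V.logCond_nonneg n E
  have hR0 : 0 ≤ (2 + Real.log (height a) + logN n E) ^ κ := by positivity
  rcases min_le_iff.1 h4 with h5 | h5
  · exact (min_le_left _ _).trans h5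
  · refine (min_le_right _ _).trans ?_
    have h6 : faltings E τ = (Pool.Agent.Y733.FF.discSum E + ∑ w : InfinitePlace P,
        (w.mult : ℝ) * Pool.Agent.TH876.FH.arch (τ w)) / (12 * Module.finrank ℚ P) := rfl
    rw [h6]
    have h7 : (1 : ℝ) ≤ 12 * Module.finrank ℚ P := by
      have : 1 ≤ Module.finrank ℚ P := Module.finrank_pos
      have : (1 : ℝ) ≤ Module.finrank ℚ P := by exact_mod_cast this
      linarith
    rw [div_le_iff₀ (by linarith)]
    exact h5.trans (le_mul_of_one_le_right hR0 h7)

end Pool.Agent.Results.MP_6babc4_nt.FreyModuloN
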