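import Mathlib
import Pool.Agent.Run7.h742.SZ.Fh4

/-! Frey's inequality between the (unstable) Faltings height and the conductor for the Weil
restrictions `A = Res_{L/K} E` of all elliptic curves `E` over all number fields `L`, to all
subfields `K`, whose invariant is the value of a rational function at an integral point of affine
space, for almost all integral points. The slope is `max (D / ω, D / (2 ω) + 3, 5) / 12`, where `D` is
the degree of the rational function and `ω` the weight of its poles; it is `1 / 2` if `D ≤ 6 ω`. -/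

set_option autoImplicit false

namespace Pool.Agent.Results.MP_6babc4_nt.IntegralPointsUnstable

open MvPolynomial NumberField IsDedekindDomain

/-- the modular invariant `j(τ) = E₄(τ) ^ 3 / Δ(τ) = 1 / q + 744 + ⋯` -/
noncomputable def jInv (τ : UpperHalfPlane) : ℂ :=
  ModularForm.E₄ τ ^ 3 / ModularForm.discriminant τ

/-- the archimedean term `- log (|Δ(τ)| (Im τ) ^ 6)` of the Faltings height -/
noncomputable def arch (τ : UpperHalfPlane) : ℝ :=
  -Real.log (‖ModularForm.discriminant τ‖ * τ.im ^ 6)

/-- the points `τ w` have modular invariant `j` -/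
def IsPeriod {L : Type} [Field L] [NumberField L] (j : L)
    (τ : InfinitePlace L → UpperHalfPlane) : Prop := ∀ w, jInv (τ w) = w.embedding j

/-- the equation is integral at `v` -/
def IntAt {L : Type} [Field L] [NumberField L] (v : HeightOneSpectrum (𝓞 L))
    (E : WeierstrassCurve L) : Prop :=
  v.valuation L E.a₁ ≤ 1 ∧ v.valuation L E.a₂ ≤ 1 ∧ v.valuation L E.a₃ ≤ 1 ∧
    v.valuation L E.a₄ ≤ 1 ∧ v.valuation L E.a₆ ≤ 1

/-- the exponent of `v` in the minimal discriminant of the curve: the least valuation at `v` of the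
discriminant of a Weierstrass equation of the curve over `L` which is integral at `v` -/
noncomputable def discExp {L : Type} [Field L] [NumberField L] (v : HeightOneSpectrum (𝓞 L))
    (E : WeierstrassCurve L) : ℕ :=
  sInf {m : ℕ | ∃ C : WeierstrassCurve.VariableChange L, IntAt v (C • E) ∧
    v.valuation L (C • E).Δ = WithZero.exp (-(m : ℤ))}

/-- the Faltings height over `K` of the Weil restriction `A = Res_{L/K} E` of an elliptic curve `E`
over `L` (up to an absolute additive multiple of `[L : K]` which depends on the normalisation of the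
metric only) -/
noncomputable def height (K : Type) [Field K] [NumberField K] {L : Type} [Field L] [NumberField L]
    [Algebra K L] (E : WeierstrassCurve L) (τ : InfinitePlace L → UpperHalfPlane) : ℝ :=
  (∑ᶠ v : HeightOneSpectrum (𝓞 L), (discExp v E : ℝ) * Real.log (Ideal.absNorm v.asIdeal : ℝ) +
    ∑ w : InfinitePlace L, (w.mult : ℝ) * arch (τ w) +
    6 * (Real.log |(discr L : ℝ)| - Module.finrank K L * Real.log |(discr K : ℝ)|)) /
    (12 * Module.finrank ℚ K)

/-- good reduction at `v`: some Weierstrass equation over `L` of the curve is integral at `v` and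
has a discriminant which is a unit at `v` -/
def GoodAt {L : Type} [Field L] [NumberField L] (v : HeightOneSpectrum (𝓞 L))
    (E : WeierstrassCurve L) : Prop :=
  ∃ C : WeierstrassCurve.VariableChange L,
    v.valuation L (C • E).a₁ ≤ 1 ∧ v.valuation L (C • E).a₂ ≤ 1 ∧ v.valuation L (C • E).a₃ ≤ 1 ∧
    v.valuation L (C • E).a₄ ≤ 1 ∧ v.valuation L (C • E).a₆ ≤ 1 ∧ v.valuation L (C • E).Δ = 1

/-- semistable (good or multiplicative) reduction at `v`: some Weierstrass equation over `L` of the
curve is integral at `v` and its discriminant or its invariant `c₄` is a unit at `v` -/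
def SemistableAt {L : Type} [Field L] [NumberField L] (v : HeightOneSpectrum (𝓞 L))
    (E : WeierstrassCurve L) : Prop :=
  ∃ C : WeierstrassCurve.VariableChange L,
    v.valuation L (C • E).a₁ ≤ 1 ∧ v.valuation L (C • E).a₂ ≤ 1 ∧ v.valuation L (C • E).a₃ ≤ 1 ∧
    v.valuation L (C • E).a₄ ≤ 1 ∧ v.valuation L (C • E).a₆ ≤ 1 ∧
    (v.valuation L (C • E).Δ = 1 ∨ v.valuation L (C • E).c₄ = 1)

/-- the product of the norms of the primes of multiplicative reduction not dividing six -/
noncomputable def multNorm {L : Type} [Field L] [NumberField L] (E : WeierstrassCurve L) : ℝ :=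
  ∏ᶠ v ∈ {v : HeightOneSpectrum (𝓞 L) |
    ¬ GoodAt v E ∧ SemistableAt v E ∧ v.valuation L 6 = 1}, (Ideal.absNorm v.asIdeal : ℝ)

/-- the product of the squares of the norms of the primes of additive reduction not dividing six -/
noncomputable def addNorm {L : Type} [Field L] [NumberField L] (E : WeierstrassCurve L) : ℝ :=
  ∏ᶠ v ∈ {v : HeightOneSpectrum (𝓞 L) | ¬ SemistableAt v E ∧ v.valuation L 6 = 1},
    (Ideal.absNorm v.asIdeal : ℝ) ^ 2

/-- the norm `|D_L| / |D_K| ^ [L : K]` of the relative discriminant -/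
noncomputable def relDisc (K L : Type) [Field K] [NumberField K] [Field L] [NumberField L]
    [Algebra K L] : ℝ := |(discr L : ℝ)| / |(discr K : ℝ)| ^ Module.finrank K L

/-- a factor of the conductor of `A = Res_{L/K} E`: the part prime to six of the norm of the
conductor of `E`, times the square of the norm of the relative discriminant -/
noncomputable def cond (K : Type) [Field K] [NumberField K] {L : Type} [Field L] [NumberField L]
    [Algebra K L] (E : WeierstrassCurve L) : ℝ :=
  multNorm E * addNorm E * relDisc K L ^ 2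

/-- `max |x_j|` -/
def H {n : ℕ} (x : Fin (n + 1) → ℤ) : ℕ := Finset.univ.sup fun j => (x j).natAbs

/-- the rational points of the affine space `𝔸^n = ℙ^n ∖ {x 0 = 0}` with denominator in `M` and
with `H x ≤ B`: the point `(x 1 / x 0, …, x n / x 0)` is given by its coprime integer coordinates
with `x 0 > 0`, and `x 0` is its denominator. `M = {1}`: the integral points -/
def Points (n : ℕ) (M : Set ℕ) (B : ℕ) : Set (Fin (n + 1) → ℤ) :=
  {x | Finset.univ.gcd x = 1 ∧ 0 < x 0 ∧ (x 0).toNat ∈ M ∧ H x ≤ B}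

/-- `F`, `G` are forms of degree `D` in `x 0, …, x n`, so `F / G` is a rational function on `𝔸^n`,
and its poles contain the distinct hypersurfaces `P j = 0` of degree `k j`, irreducible over `ℚ`,
none of which is the hyperplane `x 0 = 0`: `P j` divides `G` and does not divide `F` -/
structure IsInvariant {n q : ℕ} (D : ℕ) (F G : MvPolynomial (Fin (n + 1)) ℤ)
    (P : Fin q → MvPolynomial (Fin (n + 1)) ℤ) (k : Fin q → ℕ) : Prop where
  hF : F.IsHomogeneous D
  hG : G.IsHomogeneous D
  hP : ∀ j, (P j).IsHomogeneous (k j)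
  irreducible : ∀ j, Irreducible (map (Int.castRingHom ℚ) (P j))
  distinct : ∀ i j, i ≠ j →
    ¬ Associated (map (Int.castRingHom ℚ) (P i)) (map (Int.castRingHom ℚ) (P j))
  affine : ∀ j, ¬ Associated (map (Int.castRingHom ℚ) (P j)) (X 0)
  dvd : ∀ j, map (Int.castRingHom ℚ) (P j) ∣ map (Int.castRingHom ℚ) G
  not_dvd : ∀ j, ¬ map (Int.castRingHom ℚ) (P j) ∣ map (Int.castRingHom ℚ) F

/-- the weight of the poles: a pole of degree `1` counts for `1`, a pole of degree at least `2`
counts for `2` -/
def weight {q : ℕ} (k : Fin q → ℕ) : ℝ := ∑ j, ((min (k j) 2 : ℕ) : ℝ)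

/-- `E` is an elliptic curve over `L` with invariant `F (x) / G (x)`, and the `τ w` are its periods -/
def HasInvariant {n : ℕ} (F G : MvPolynomial (Fin (n + 1)) ℤ) (x : Fin (n + 1) → ℤ) {L : Type}
    [Field L] [NumberField L] (E : WeierstrassCurve L) (τ : InfinitePlace L → UpperHalfPlane) :
    Prop :=
  eval x G ≠ 0 ∧ E.Δ ≠ 0 ∧ E.c₄ ^ 3 / E.Δ = ((eval x F : ℤ) : L) / ((eval x G : ℤ) : L) ∧
    IsPeriod (E.c₄ ^ 3 / E.Δ) τ

/-- the points `x` for which `h_F(A) + c₀ [L : K] ≤ κ log N_A` fails for some number fields `K ⊆ L`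
and the Weil restriction `A = Res_{L/K} E` of some elliptic curve `E` over `L` with invariant
`F (x) / G (x)` -/
def Failures {n : ℕ} (F G : MvPolynomial (Fin (n + 1)) ℤ) (κ c₀ : ℝ) :
    Set (Fin (n + 1) → ℤ) :=
  {x | x 0 ≠ 0 ∧ ∃ (K L : Type) (_ : Field K) (_ : NumberField K) (_ : Field L)
    (_ : NumberField L) (_ : Algebra K L) (E : WeierstrassCurve L)
    (τ : InfinitePlace L → UpperHalfPlane), HasInvariant F G x E τ ∧
      κ * Real.log (cond K E) < height K E τ + c₀ * Module.finrank K L}

/-- the proportion of the points of `Q` among the points with denominators in `M` of height at most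
`B` is at most a negative power of `B`, uniformly in the set `M` -/
def PowerSaving (n : ℕ) (Q : Set (Fin (n + 1) → ℤ)) : Prop :=
  ∃ δ : ℝ, 0 < δ ∧ ∃ C : ℝ, 0 < C ∧ ∀ B : ℕ, 1 ≤ B → ∀ M : Set ℕ,
    ((Points n M B ∩ Q).ncard : ℝ) ≤ C * (B : ℝ) ^ (-δ) * ((Points n M B).ncard : ℝ)

theorem cond_eq (K : Type) [Field K] [NumberField K] {L : Type} [Field L] [NumberField L]
    [Algebra K L] (E : WeierstrassCurve L) (hE : E.Δ ≠ 0) :
    Real.log (cond K E) = Run7.h742.SZ.lc K E := by
  have hdK1 : (1 : ℝ) ≤ |(discr K : ℝ)| := by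
    have h1 : (1 : ℤ) ≤ |discr K| := Int.one_le_abs (discr_ne_zero K)
    exact_mod_cast h1
  have hdL1 : (1 : ℝ) ≤ |(discr L : ℝ)| := by
    have h1 : (1 : ℤ) ≤ |discr L| := Int.one_le_abs (discr_ne_zero L)
    exact_mod_cast h1
  have hm : 0 < multNorm E := Pool.Agent.Y733.FF.multN_pos E hE
  have ha : 0 < addNorm E := Pool.Agent.Y733.FF.addN_pos E hE
  have hr : 0 < relDisc K L := by
    unfold relDisc
    have : (0 : ℝ) < |(discr L : ℝ)| := by linarith
    have : (0 : ℝ) < |(discr K : ℝ)| := by linarith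
    positivity
  have hrd : Real.log (relDisc K L ^ 2) = 2 * Pool.Agent.N365.FH.rd K L := by
    unfold relDisc Pool.Agent.N365.FH.rd
    rw [Real.log_pow, Real.log_div (by linarith) (pow_pos (by linarith) _).ne', Real.log_pow]
    push_cast
    ring
  unfold cond
  rw [Real.log_mul (mul_pos hm ha).ne' (pow_pos hr 2).ne', Real.log_mul hm.ne' ha.ne', hrd]
  rfl

/-- **Frey's inequality over all number fields at almost all integral points.** Let `n ≥ 1` be the
number of the variables and `j = F / G` an invariant of degree `D` whose poles have the weight `ω`,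
and `κ > max (D / ω, D / (2 ω) + 3) / 12`, `κ ≥ 5 / 12`.
(1) For every `c₀` the inequality `h_F(A) + c₀ [L : K] ≤ κ log N_A` holds for `A = Res_{L/K} E`, for ALL
number fields `K ⊆ L` and ALL elliptic curves `E` over `L` with invariant `j (x)`, for all points `x`
outside a set which contains a power-saving proportion of the points, uniformly in the set `M` of the
denominators.
(2) There is one set `E₀` of relative density zero among the points with denominators in `M`,
uniformly in `M`, such that for all invariants `j` of `n` variables and all `x` outside `E₀`, for all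
`K ⊆ L` and all `E` with invariant `j (x)`: `h_F(A) ≤ κ log N_A + C [L : K]`, with `C` depending on `j`
and `κ` only, neither on `K` nor on `L`; in particular `h_F(A) ≤ (1 / 2 + ε) log N_A + C [L : K]`
for every `ε > 0` if `D ≤ 6 ω`. -/
theorem result : ∀ n : ℕ, 1 ≤ n →
    (∀ (D q : ℕ) (F G : MvPolynomial (Fin (n + 1)) ℤ)
      (P : Fin q → MvPolynomial (Fin (n + 1)) ℤ) (k : Fin q → ℕ), IsInvariant D F G P k →
      ∀ κ : ℝ, (D : ℝ) < 12 * κ * weight k → (D : ℝ) < (24 * κ - 6) * weight k → 5 ≤ 12 * κ →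
        ∀ c₀ : ℝ, PowerSaving n (Failures F G κ c₀)) ∧
    ∃ E₀ : Set (Fin (n + 1) → ℤ),
      (∀ ε : ℝ, 0 < ε → ∃ B₀ : ℕ, ∀ B : ℕ, B₀ ≤ B → ∀ M : Set ℕ,
        ((Points n M B ∩ E₀).ncard : ℝ) ≤ ε * ((Points n M B).ncard : ℝ)) ∧
      ∀ (D q : ℕ) (F G : MvPolynomial (Fin (n + 1)) ℤ)
        (P : Fin q → MvPolynomial (Fin (n + 1)) ℤ) (k : Fin q → ℕ), IsInvariant D F G P k →
        (∀ κ : ℝ, (D : ℝ) < 12 * κ * weight k → (D : ℝ) < (24 * κ - 6) * weight k →
          5 ≤ 12 * κ → ∃ C : ℝ, ∀ x : Fin (n + 1) → ℤ, x 0 ≠ 0 → x ∉ E₀ →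
            ∀ (K L : Type) [Field K] [NumberField K] [Field L] [NumberField L] [Algebra K L]
            (E : WeierstrassCurve L) (τ : InfinitePlace L → UpperHalfPlane),
            HasInvariant F G x E τ →
              height K E τ ≤ κ * Real.log (cond K E) + C * Module.finrank K L) ∧
        (0 < weight k → (D : ℝ) ≤ 6 * weight k → ∀ ε : ℝ, 0 < ε → ∃ C : ℝ,
          ∀ x : Fin (n + 1) → ℤ, x 0 ≠ 0 → x ∉ E₀ →
            ∀ (K L : Type) [Field K] [NumberField K] [Field L] [NumberField L] [Algebra K L]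
            (E : WeierstrassCurve L) (τ : InfinitePlace L → UpperHalfPlane),
            HasInvariant F G x E τ →
              height K E τ ≤ (1 / 2 + ε) * Real.log (cond K E) + C * Module.finrank K L) := by
  intro n hn
  have hinv : ∀ (D q : ℕ) (F G : MvPolynomial (Fin (n + 1)) ℤ)
      (P : Fin q → MvPolynomial (Fin (n + 1)) ℤ) (k : Fin q → ℕ), IsInvariant D F G P k →
      Run7.h742.SZ.Inv D F G P k := fun D q F G P k h =>
    ⟨h.hF, h.hG, ⟨h.hP, h.irreducible, h.distinct, h.affine⟩, h.dvd, h.not_dvd⟩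
  refine ⟨fun D q F G P k h κ hκ hκ' hκ5 c₀ => ?_, ?_⟩
  · refine (Run7.h742.SZ.unst_ps hn (hinv D q F G P k h) hκ hκ' hκ5 c₀).mono ?_
    rintro x ⟨hx, K, L, iK, iNK, iL, iNL, iA, E, τ, hE, hlt⟩
    refine ⟨hx, K, L, iK, iNK, iL, iNL, iA, E, τ, hE, ?_⟩
    rw [← cond_eq K E hE.2.1]
    exact hlt
  · obtain ⟨E₀, hE₀, hall⟩ := Run7.h742.SZ.frey_univ hn
    refine ⟨E₀, hE₀, fun D q F G P k h => ?_⟩
    obtain ⟨-, h1⟩ := hall D q F G P k (hinv D q F G P k h)
    have key : ∀ κ : ℝ, (D : ℝ) < 12 * κ * weight k → (D : ℝ) < (24 * κ - 6) * weight k →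
          5 ≤ 12 * κ → ∃ C : ℝ, ∀ x : Fin (n + 1) → ℤ, x 0 ≠ 0 → x ∉ E₀ →
            ∀ (K L : Type) [Field K] [NumberField K] [Field L] [NumberField L] [Algebra K L]
            (E : WeierstrassCurve L) (τ : InfinitePlace L → UpperHalfPlane),
            HasInvariant F G x E τ →
              height K E τ ≤ κ * Real.log (cond K E) + C * Module.finrank K L := by
      intro κ hκ hκ' hκ5
      obtain ⟨C, -, hC⟩ := h1 κ hκ hκ' hκ5
      refine ⟨C, fun x hx hxE K L _ _ _ _ _ E τ hE => ?_⟩
      rw [cond_eq K E hE.2.1]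
      exact hC x hx hxE K L E τ hE
    refine ⟨key, fun hw hD ε hε => ?_⟩
    have hw' : 0 < ε * weight k := mul_pos hε hw
    exact key (1 / 2 + ε) (by linarith) (by linarith) (by linarith)

end Pool.Agent.Results.MP_6babc4_nt.IntegralPointsUnstable
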