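import Mathlib
import Pool.Agent.Results.MP_6babc4_nt.ViolatorsSecondOrder
import Pool.Agent.Run7.h585.AN.Fin

/-!
# The typical elliptic curves over `ℚ` which violate Frey's inequality with a small slope

Frey's inequality is `h_F ≤ κ log N + c`. For `1/12 < κ < 1/10` the number of the minimal models `y² = x³ - a x - b` with
`|a| ≤ X²`, `|b| ≤ X³` which violate it is `X ^ (1/(2κ) - 1) exp ((√(96 - 8/κ) + o(1)) √(log X / log log X))`
(`ViolatorsSecondOrder`, one of the starting files). This file describes what the violators look like. All of them, except for a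
proportion at most `exp (- δ √(log X / log log X))`, have the following properties (for every `ε > 0`, with
`δ = δ(ε) > 0`):

* `|D| = X ^ (6 + o(1))`, the archimedean term of the height is `o(log X)`: the curves are not near the cusp and
  `h_F = (1/2 + o(1)) log X`; the conductor is `X ^ (1/(2κ) + o(1))`; but the product of the primes `p ≥ 5` dividing the
  integer `|D| / N₆` is `X ^ o(1)`;
* the number of the primes of multiplicative reduction with `p² ∣ D` (type `I_m`, `m ≥ 2`), and the number of the primes of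
  type `I*_m`, `m ≥ 1`, are both `(√(6 - 1/(2κ)) + o(1)) √(log X / log log X)`; more precisely, for all `y` the number of
  those up to `y` is this quantity multiplied by `1 - log log X / (2 log y)` (by zero if this is negative);
* all the other types with `p ∣ a`, `p³ ∣ D` occur together at most `o(√(log X / log log X))` times.
-/

set_option autoImplicit false

namespace Pool.Agent.Results.MP_6babc4_nt.TypicalViolators

open Filter Topology

/-- the discriminant of `x³ - a x - b` -/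
def Disc (a b : ℤ) : ℤ := 4 * a ^ 3 - 27 * b ^ 2

/-- `y² = x³ - a x - b` is an elliptic curve and `|Disc|` is least among the integral models
`y² = x³ - a' x - b'`, `a' = u⁴ a`, `b' = u⁶ b`, `u ∈ ℚ^×`. Every elliptic curve over `ℚ` has exactly
one such model. -/
def IsMinimal (a b : ℤ) : Prop :=
  Disc a b ≠ 0 ∧ ∀ (u : ℚ) (a' b' : ℤ), u ≠ 0 → (a' : ℚ) = u ^ 4 * a → (b' : ℚ) = u ^ 6 * b →
    |Disc a b| ≤ |Disc a' b'|

/-- the prime-to-6 part of the conductor of a minimal model: the product over the primes `p ≥ 5`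
dividing `Disc` of `p` (multiplicative reduction: `p ∤ a`) or `p²` (additive reduction: `p ∣ a`) -/
def Cond6 (a b : ℤ) : ℕ :=
  ∏ p ∈ (Disc a b).natAbs.primeFactors.filter (fun p => 5 ≤ p), if (p : ℤ) ∣ a then p ^ 2 else p

/-- `f` lies between `N₆` and a constant times `N₆` on the minimal models; for instance `f = N₆`, and
`f =` the conductor -/
def Admissible (f : ℤ × ℤ → ℝ) : Prop :=
  ∃ B : ℝ, ∀ q : ℤ × ℤ, IsMinimal q.1 q.2 →
    (Cond6 q.1 q.2 : ℝ) ≤ f q ∧ f q ≤ B * Cond6 q.1 q.2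

/-- the curve `y² = x³ - a x - b` over `ℚ`, `q = (a, b)` -/
def E (q : ℤ × ℤ) : WeierstrassCurve ℚ := ⟨0, 0, 0, -(q.1 : ℚ), -(q.2 : ℚ)⟩

/-- the absolute value of the minimal discriminant of an elliptic curve `W` over `ℚ`: the smallest
absolute value of the discriminant of a Weierstrass equation `V` with integer coefficients which is
isomorphic to `W` over `ℚ` -/
noncomputable def minDisc (W : WeierstrassCurve ℚ) : ℕ :=
  sInf {n : ℕ | ∃ (V : WeierstrassCurve ℤ) (C : WeierstrassCurve.VariableChange ℚ),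
    C • W = V.map (Int.castRingHom ℚ) ∧ n = V.Δ.natAbs}

/-- the modular invariant `j(τ) = E₄(τ) ^ 3 / Δ(τ) = 1 / q + 744 + ⋯` -/
noncomputable def jInv (τ : UpperHalfPlane) : ℂ :=
  ModularForm.E₄ τ ^ 3 / ModularForm.discriminant τ

/-- the archimedean term `- log (|Δ(τ)| (Im τ) ^ 6)` of the Faltings height -/
noncomputable def arch (τ : UpperHalfPlane) : ℝ :=
  -Real.log (‖ModularForm.discriminant τ‖ * τ.im ^ 6)

/-- `E(ℂ)` is isomorphic to `ℂ / (ℤ + ℤ τ)`: `j(τ) = c₄³ / Δ` is the invariant of `E` -/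
def IsPeriod (q : ℤ × ℤ) (τ : UpperHalfPlane) : Prop :=
  jInv τ = (((E q).c₄ ^ 3 / (E q).Δ : ℚ) : ℂ)

/-- The Faltings height over `ℚ` (up to an additive constant which depends on the normalisation
only): `12 h_F(E)` is the logarithm of the minimal discriminant plus the archimedean term at a period
`τ` of the curve. -/
noncomputable def height (q : ℤ × ℤ) (τ : UpperHalfPlane) : ℝ :=
  (Real.log (minDisc (E q) : ℝ) + arch τ) / 12

/-- the minimal models with `|a| ≤ X²`, `|b| ≤ X³` which violate `h_F(E) < κ log f + c` -/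
def Violators (f : ℤ × ℤ → ℝ) (κ c X : ℝ) : Set (ℤ × ℤ) :=
  {q | IsMinimal q.1 q.2 ∧ |(q.1 : ℝ)| ≤ X ^ 2 ∧ |(q.2 : ℝ)| ≤ X ^ 3 ∧
    ∃ τ, IsPeriod q τ ∧ κ * Real.log (f q) + c ≤ height q τ}

/-- the primes `5 ≤ p ≤ y` of multiplicative reduction with `p² ∣ D` (type `I_m`, `m ≥ 2`) -/
def Nodes (a b : ℤ) (y : ℝ) : Set ℕ :=
  {p | p.Prime ∧ 5 ≤ p ∧ (p : ℝ) ≤ y ∧ ¬ (p : ℤ) ∣ a ∧ (p : ℤ) ^ 2 ∣ Disc a b}

/-- the primes `5 ≤ p ≤ y` with `p ∣ a`, `p³ ∤ a`, `p⁷ ∣ D`; for a minimal model this is the type `I*_m`, `m ≥ 1` -/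
def Stars (a b : ℤ) (y : ℝ) : Set ℕ :=
  {p | p.Prime ∧ 5 ≤ p ∧ (p : ℝ) ≤ y ∧ (p : ℤ) ∣ a ∧ ¬ (p : ℤ) ^ 3 ∣ a ∧ (p : ℤ) ^ 7 ∣ Disc a b}

/-- the other primes `p ≥ 5` with `p ∣ a`, `p³ ∣ D` -/
def Others (a b : ℤ) : Set ℕ :=
  {p | p.Prime ∧ 5 ≤ p ∧ (p : ℤ) ∣ a ∧ (p : ℤ) ^ 3 ∣ Disc a b ∧
    ¬ (¬ (p : ℤ) ^ 3 ∣ a ∧ (p : ℤ) ^ 7 ∣ Disc a b)}

/-- `√(log X / log log X)` -/
noncomputable def scale (X : ℝ) : ℝ := √(Real.log X / Real.log (Real.log X))

/-- the curves which look as described above, with the error `ε` -/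
def Typical (κ ε X : ℝ) (a b : ℤ) : Prop :=
  X ^ (6 - ε) ≤ |((Disc a b : ℤ) : ℝ)| ∧ (∀ τ, IsPeriod (a, b) τ → |arch τ| ≤ ε * Real.log X) ∧
  X ^ (1 / (2 * κ) - ε) ≤ Cond6 a b ∧ (Cond6 a b : ℝ) ≤ X ^ (1 / (2 * κ) + ε) ∧
  (∏ p ∈ ((Disc a b).natAbs / Cond6 a b).primeFactors with 5 ≤ p, p : ℕ) ≤ X ^ ε ∧
  (∀ y : ℝ, 2 ≤ y → |((Nodes a b y).ncard : ℝ) -
    max 0 (1 - Real.log (Real.log X) / (2 * Real.log y)) * (√(6 - 1 / (2 * κ)) * scale X)| ≤
      ε * scale X) ∧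
  (∀ y : ℝ, 2 ≤ y → |((Stars a b y).ncard : ℝ) -
    max 0 (1 - Real.log (Real.log X) / (2 * Real.log y)) * (√(6 - 1 / (2 * κ)) * scale X)| ≤
      ε * scale X) ∧
  ((Others a b).ncard : ℝ) ≤ ε * scale X

theorem hm (a b : ℤ) : IsMinimal a b ↔ Pool.Agent.N906.SZ.Mn a b :=
  Pool.Agent.N157.SZ.isMinimal_iff a b

theorem viol_eq (f : ℤ × ℤ → ℝ) (κ c X : ℝ) : Violators f κ c X =
    Pool.Agent.N906.FH.HV (fun a b => ∃ τ, Pool.Agent.N906.FH.IsPer a b τ ∧
      κ * Real.log (f (a, b)) + c ≤ Pool.Agent.N906.FH.hun a b τ) X := by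
  ext q
  exact and_congr (hm _ _) Iff.rfl

theorem viol_eq2 (f : ℤ × ℤ → ℝ) (κ c X : ℝ) : Violators f κ c X =
    Pool.Agent.Results.MP_6babc4_nt.ViolatorsSecondOrder.Violators f κ c X := rfl

/-- a violator satisfies `N₆ ≤ K max(|a|³, |D|) ^ (1/σ)` -/
theorem cand {f : ℤ × ℤ → ℝ} {B : ℝ} (hB : ∀ q : ℤ × ℤ, IsMinimal q.1 q.2 →
    (Cond6 q.1 q.2 : ℝ) ≤ f q ∧ f q ≤ B * Cond6 q.1 q.2) {κ : ℝ} (h1 : 1 / 12 < κ) (c : ℝ) :
    ∃ K : ℝ, 1 ≤ K ∧ ∀ X : ℝ, ∀ x ∈ Violators f κ c X,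
      Pool.Agent.Run7.h585.AN.Cand (1 - 1 / (12 * κ)) K X x := by
  obtain ⟨C₁, hC₁⟩ := Pool.Agent.N195.FH.arch_bds
  obtain ⟨C₂, hC₂⟩ := Pool.Agent.N40.FH.md
  have hσ1 : 1 < 12 * κ := by linarith
  refine ⟨Real.exp (|C₁ + C₂ - 12 * c| / (12 * κ)), Real.one_le_exp (by positivity), ?_⟩
  rintro X ⟨a, b⟩ ⟨g1, g2, g3, τ, hτ, hh⟩
  have hab := (hm _ _).1 g1
  simp only at hab
  refine ⟨hab, g2, g3, ?_⟩
  have k1 := ((hC₁ a b hab.1).2 τ hτ).2.2
  have k2 := (hC₂ a b hab).2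
  have hN : (1 : ℝ) ≤ Pool.Agent.N906.SZ.Nc a b := by exact_mod_cast Pool.Agent.N906.SZ.Nc_pos a b
  have k3 : Real.log (Pool.Agent.N906.SZ.Nc a b : ℝ) ≤ Real.log (f (a, b)) :=
    Real.log_le_log (by linarith) (hB (a, b) g1).1
  have hh' : κ * Real.log (f (a, b)) + c ≤ Pool.Agent.N906.FH.hun a b τ := hh
  unfold Pool.Agent.N906.FH.hun at hh'
  have hκ : 0 < κ := by linarith
  have k4 : κ * Real.log (Pool.Agent.N906.SZ.Nc a b : ℝ) ≤ κ * Real.log (f (a, b)) :=
    mul_le_mul_of_nonneg_left k3 hκ.le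
  exact Pool.Agent.N906.FH.from_log hσ1 rfl (by linarith) (Pool.Agent.N906.FH.Mx_pos hab.1)
    (by linarith)

/-- the typical curves of the general theorem are typical -/
theorem typical_of {κ : ℝ} (h1 : 1 / 12 < κ) (h2 : κ < 1 / 10) {ε : ℝ} (hε : 0 < ε) (K : ℝ) (hK : 1 ≤ K) :
    ∀ᶠ X : ℝ in atTop, ∀ a b : ℤ, Pool.Agent.Run7.h585.AN.Cand (1 - 1 / (12 * κ)) K X (a, b) →
      Pool.Agent.Run7.h585.AN.TypS (12 * κ) (ε / 2) X a b → Typical κ ε X a b := by
  obtain ⟨C₁, hC₁⟩ := Pool.Agent.N195.FH.arch_bds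
  have hκ : 0 < κ := by linarith
  have hl : ∀ᶠ X : ℝ in atTop, (|C₁| + Real.log 64 + Real.log (64 * K)) / (ε / 2) ≤ Real.log X :=
    Real.tendsto_log_atTop.eventually_ge_atTop _
  filter_upwards [hl, eventually_ge_atTop (31 : ℝ)] with X hX hX31 a b hcand ht
  have hX0 : 0 < X := by linarith
  have hX1 : 1 ≤ X := by linarith
  obtain ⟨t1, t2, t3, t4, t5, t6⟩ := ht
  obtain ⟨g1, g2, g3, g4⟩ := hcand
  have e1 : 6 / (12 * κ) = 1 / (2 * κ) := by field_simp; norm_num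
  have e2 : 6 * (1 - 1 / (12 * κ)) = 6 - 1 / (2 * κ) := by field_simp; ring
  rw [e1] at t2
  rw [e2] at t4 t5
  have hsc : 0 ≤ scale X := Real.sqrt_nonneg _
  have hlog : 0 < Real.log X := Real.log_pos (by linarith)
  have hlK : 0 ≤ Real.log (64 * K) := Real.log_nonneg (by linarith)
  have hl64 : 0 ≤ Real.log 64 := Real.log_nonneg (by norm_num)
  rw [div_le_iff₀ (by positivity)] at hX
  have hD0 : (0 : ℝ) < |((Pool.Agent.N906.SZ.Dd a b : ℤ) : ℝ)| :=
    abs_pos.2 (by exact_mod_cast g1.1)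
  have hM0 : 0 < Pool.Agent.N906.FH.Mx a b := Pool.Agent.N906.FH.Mx_pos g1.1
  have hM : Pool.Agent.N906.FH.Mx a b ≤ 64 * X ^ 6 := Pool.Agent.N692.FH.upg_mx g2 g3
  have hlM : Real.log (Pool.Agent.N906.FH.Mx a b) ≤ Real.log 64 + 6 * Real.log X := by
    have h := Real.log_le_log hM0 hM
    rw [Real.log_mul (by norm_num) (by positivity), Real.log_pow] at h
    push_cast at h
    linarith
  have hlD : (6 - ε / 2) * Real.log X ≤ Real.log |((Pool.Agent.N906.SZ.Dd a b : ℤ) : ℝ)| := by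
    have h := Real.log_le_log (by positivity) t1
    rwa [Real.log_rpow hX0] at h
  refine ⟨?_, ?_, ?_, ?_, ?_, ?_, ?_, ?_⟩
  · exact (Real.rpow_le_rpow_of_exponent_le hX1 (by linarith)).trans t1
  · intro τ hτ
    obtain ⟨k1, -, k3⟩ := (hC₁ a b g1.1).2 τ hτ
    have k4 : |arch τ| = |Pool.Agent.N906.FH.arch τ| := rfl
    have k5 := le_abs_self C₁
    have k6 : 0 ≤ ε / 2 * Real.log X := by positivity
    rw [k4, abs_le]
    constructor <;> linarith
  · exact (Real.rpow_le_rpow_of_exponent_le hX1 (by linarith)).trans t2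
  · have h3 : (Pool.Agent.N906.SZ.Nc a b : ℝ) ≤ 64 * K * X ^ (1 / (2 * κ)) := by
      refine g4.trans ?_
      have e3 : 1 - (1 - 1 / (12 * κ)) = 1 / (12 * κ) := by ring
      rw [e3]
      have h12 : 0 < 1 / (12 * κ) := by positivity
      have h13 : 1 / (12 * κ) ≤ 1 := by rw [div_le_one (by positivity)]; linarith
      calc K * Pool.Agent.N906.FH.Mx a b ^ (1 / (12 * κ)) ≤ K * (64 * X ^ 6) ^ (1 / (12 * κ)) := by
            apply mul_le_mul_of_nonneg_left _ (by linarith)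
            exact Real.rpow_le_rpow hM0.le hM h12.le
        _ = K * 64 ^ (1 / (12 * κ)) * X ^ (1 / (2 * κ)) := by
            rw [Real.mul_rpow (by norm_num) (by positivity), ← Real.rpow_natCast X 6,
              ← Real.rpow_mul hX0.le, show ((6 : ℕ) : ℝ) * (1 / (12 * κ)) = 1 / (2 * κ) by
                rw [← e1]; push_cast; ring]
            ring
        _ ≤ K * 64 * X ^ (1 / (2 * κ)) := by
            apply mul_le_mul_of_nonneg_right _ (by positivity)
            apply mul_le_mul_of_nonneg_left _ (by linarith)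
            calc (64 : ℝ) ^ (1 / (12 * κ)) ≤ 64 ^ (1 : ℝ) :=
                  Real.rpow_le_rpow_of_exponent_le (by norm_num) h13
              _ = 64 := Real.rpow_one 64
        _ = _ := by ring
    have h4 : 64 * K ≤ X ^ ε := by
      rw [Real.rpow_def_of_pos hX0, ← Real.log_le_iff_le_exp (by linarith)]
      have : 0 ≤ |C₁| := abs_nonneg _
      have k6 : 0 ≤ ε / 2 * Real.log X := by positivity
      linarith
    calc ((Cond6 a b : ℕ) : ℝ) ≤ 64 * K * X ^ (1 / (2 * κ)) := h3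
      _ ≤ X ^ ε * X ^ (1 / (2 * κ)) := mul_le_mul_of_nonneg_right h4 (by positivity)
      _ = X ^ (1 / (2 * κ) + ε) := by rw [← Real.rpow_add hX0]; congr 1; ring
  · exact t3.trans (Real.rpow_le_rpow_of_exponent_le hX1 (by linarith))
  · intro y hy
    refine (t4 y hy).trans ?_
    exact mul_le_mul_of_nonneg_right (by linarith) hsc
  · intro y hy
    refine (t5 y hy).trans ?_
    exact mul_le_mul_of_nonneg_right (by linarith) hsc
  · refine t6.trans ?_
    exact mul_le_mul_of_nonneg_right (by linarith) hsc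

/-- **Theorem.** Let `f` be admissible (for instance the conductor), `1/12 < κ < 1/10`, `c` real and `ε > 0`. There is
`δ > 0` such that, for all large `X`, the violators of `h_F < κ log f + c` with `|a| ≤ X²`, `|b| ≤ X³` are typical up to the
error `ε` with the exception of a proportion of at most `exp (- δ √(log X / log log X))`. -/
theorem result : ∀ f : ℤ × ℤ → ℝ, Admissible f → ∀ κ c : ℝ, 1 / 12 < κ → κ < 1 / 10 →
    ∀ ε : ℝ, 0 < ε → (∀ X : ℝ, (Violators f κ c X).Finite) ∧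
    ∃ δ : ℝ, 0 < δ ∧ ∀ᶠ X : ℝ in atTop, 0 < (Violators f κ c X).ncard ∧
      (({q ∈ Violators f κ c X | ¬ Typical κ ε X q.1 q.2} : Set (ℤ × ℤ)).ncard : ℝ) ≤
        Real.exp (-(δ * scale X)) * ((Violators f κ c X).ncard : ℝ) := by
  intro f hf κ c h1 h2 ε hε
  obtain ⟨hfin, hlim⟩ :=
    Pool.Agent.Results.MP_6babc4_nt.ViolatorsSecondOrder.result f hf κ c h1 h2
  obtain ⟨B, hB⟩ := hf
  obtain ⟨K, hK, hV⟩ := cand hB h1 c
  have hκ : 0 < κ := by linarith
  refine ⟨hfin, ?_⟩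
  have e1 : 6 / (12 * κ) = 1 / (2 * κ) := by field_simp; norm_num
  have e2 : 96 * (1 - 1 / (12 * κ)) = 96 - 8 / κ := by field_simp; ring
  have hlim' : Tendsto (fun X : ℝ => (Real.log ((Violators f κ c X).ncard : ℝ) -
      (6 / (12 * κ) - 1) * Real.log X) / √(Real.log X / Real.log (Real.log X))) atTop
      (𝓝 √(96 * (1 - 1 / (12 * κ)))) := by
    rw [e1, e2]
    exact hlim
  obtain ⟨δ, hδ, h⟩ := Pool.Agent.Run7.h585.AN.fin_S (σ := 12 * κ) (by linarith) (by linarith) K hK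
    (fun X => Violators f κ c X) hfin (fun X _ => hV X) hlim' (ε / 2) (by positivity)
  refine ⟨δ, hδ, ?_⟩
  filter_upwards [h, typical_of h1 h2 hε K hK] with X hX hT
  refine ⟨hX.1, le_trans ?_ hX.2⟩
  have hsub : ({q ∈ Violators f κ c X | ¬ Typical κ ε X q.1 q.2} : Set (ℤ × ℤ)) ⊆
      {x ∈ Violators f κ c X | ¬ Pool.Agent.Run7.h585.AN.TypS (12 * κ) (ε / 2) X x.1 x.2} := by
    rintro x ⟨hx1, hx2⟩
    exact ⟨hx1, fun ht => hx2 (hT x.1 x.2 (hV X x hx1) ht)⟩
  have := Set.ncard_le_ncard hsub ((hfin X).subset fun x hx => hx.1)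
  exact_mod_cast this

end Pool.Agent.Results.MP_6babc4_nt.TypicalViolators
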